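import Pool.Agent.H20.LIM.Targets

/-!
# Basic facts on the averages over discs
-/

set_option autoImplicit false

open Complex MeasureTheory Set Filter Topology Metric

namespace Pool.Agent.H19.LIM

open Pool.Agent.H20.LIM Pool.Agent.H23.GLM Pool.Agent.H23.DZ

variable {f g : ℂ → ℝ} {r : ℝ}

lemma vol_ball (z : ℂ) (hr : 0 ≤ r) : volume.real (ball z r) = Real.pi * r ^ 2 := by
  rw [Measure.real, Complex.volume_ball, ENNReal.toReal_mul, ENNReal.toReal_pow,
    ENNReal.toReal_ofReal hr, mul_comm]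
  rfl

lemma av_eq (hr : 0 ≤ r) (f : ℂ → ℝ) (z : ℂ) :
    av r f z = (Real.pi * r ^ 2)⁻¹ * ∫ w in ball z r, f w := by
  unfold av
  rw [setAverage_eq, vol_ball z hr, smul_eq_mul]

lemma integral_ball_eq (f : ℂ → ℝ) (z : ℂ) (r : ℝ) :
    ∫ w in ball z r, f w = ∫ w in ball (0 : ℂ) r, f (z + w) := by
  have h1 := (measurePreserving_add_left (volume : Measure ℂ) z).setIntegral_preimage_emb
    (measurableEmbedding_addLeft z) f (ball z r)
  have h2 : (fun x => z + x) ⁻¹' ball z r = ball (0 : ℂ) r := by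
    ext w
    simp [mem_ball, dist_eq_norm]
  rw [h2] at h1
  exact h1.symm

lemma av_eq0 (hr : 0 ≤ r) (f : ℂ → ℝ) (z : ℂ) :
    av r f z = (Real.pi * r ^ 2)⁻¹ * ∫ w in ball (0 : ℂ) r, f (z + w) := by
  rw [av_eq hr, integral_ball_eq]

lemma intOn_ball (hf : LocallyIntegrable f volume) (z : ℂ) (r : ℝ) : IntegrableOn f (ball z r) :=
  (hf.integrableOn_isCompact (isCompact_closedBall z r)).mono_set ball_subset_closedBall

lemma av_add (hr : 0 ≤ r) {z : ℂ} (hf : IntegrableOn f (ball z r)) (hg : IntegrableOn g (ball z r)) :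
    av r (fun w => f w + g w) z = av r f z + av r g z := by
  rw [av_eq hr, av_eq hr, av_eq hr, integral_add hf hg]
  ring

lemma av_sub (hr : 0 ≤ r) {z : ℂ} (hf : IntegrableOn f (ball z r)) (hg : IntegrableOn g (ball z r)) :
    av r (fun w => f w - g w) z = av r f z - av r g z := by
  rw [av_eq hr, av_eq hr, av_eq hr, integral_sub hf hg]
  ring

lemma av_const_mul (hr : 0 ≤ r) (c : ℝ) (f : ℂ → ℝ) (z : ℂ) :
    av r (fun w => c * f w) z = c * av r f z := by
  rw [av_eq hr, av_eq hr, integral_const_mul]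
  ring

lemma av_mono (hr : 0 ≤ r) {z : ℂ} (hf : IntegrableOn f (ball z r)) (hg : IntegrableOn g (ball z r))
    (h : ∀ᵐ w : ℂ, w ∈ ball z r → f w ≤ g w) : av r f z ≤ av r g z := by
  rw [av_eq hr, av_eq hr]
  refine mul_le_mul_of_nonneg_left ?_ (by positivity)
  exact setIntegral_mono_on_ae hf hg measurableSet_ball h

lemma av_congr (hr : 0 ≤ r) {z : ℂ} (h : ∀ᵐ w : ℂ, w ∈ ball z r → f w = g w) :
    av r f z = av r g z := by
  rw [av_eq hr, av_eq hr, setIntegral_congr_ae measurableSet_ball h]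

lemma av_abs_le (hr : 0 < r) {z : ℂ} {C : ℝ} (h : ∀ w ∈ ball z r, |f w| ≤ C) :
    |av r f z| ≤ C := by
  have h1 : ‖∫ w in ball z r, f w‖ ≤ C * volume.real (ball z r) :=
    norm_setIntegral_le_of_norm_le_const (by rw [Complex.volume_ball]; finiteness)
      fun w hw => by simpa using h w hw
  rw [vol_ball z hr.le, Real.norm_eq_abs] at h1
  rw [av_eq hr.le, abs_mul, abs_of_pos (by positivity)]
  have hp : 0 < Real.pi * r ^ 2 := by positivity
  calc (Real.pi * r ^ 2)⁻¹ * |∫ w in ball z r, f w|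
      ≤ (Real.pi * r ^ 2)⁻¹ * (C * (Real.pi * r ^ 2)) :=
        mul_le_mul_of_nonneg_left h1 (by positivity)
    _ = C := by field_simp

/-- averages of Lipschitz functions -/
lemma av_lip (hr : 0 < r) {K : ℝ} (hc : Continuous f) (hK : ∀ z w : ℂ, |f z - f w| ≤ K * ‖z - w‖)
    (z z' : ℂ) : |av r f z - av r f z'| ≤ K * ‖z - z'‖ := by
  have h1 : ∀ u : ℂ, av r f u = av r (fun w => f (u + w)) 0 := by
    intro u
    rw [av_eq0 hr.le, av_eq0 hr.le]
    simp only [zero_add]
  have hi : ∀ u : ℂ, IntegrableOn (fun w => f (u + w)) (ball 0 r) := by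
    intro u
    have h2 : Continuous (fun w => f (u + w)) := hc.comp (by fun_prop)
    exact (h2.continuousOn.integrableOn_compact (isCompact_closedBall 0 r)).mono_set
      ball_subset_closedBall
  rw [h1 z, h1 z', ← av_sub hr.le (hi z) (hi z')]
  refine av_abs_le hr fun w _ => ?_
  have h3 := hK (z + w) (z' + w)
  rwa [add_sub_add_right_eq_sub] at h3

lemma av_near (hr : 0 < r) {K : ℝ} (hK0 : 0 ≤ K) (hc : Continuous f)
    (hK : ∀ z w : ℂ, |f z - f w| ≤ K * ‖z - w‖) (z : ℂ) : |av r f z - f z| ≤ K * r := by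
  have h1 : av r (fun _ => f z) z = f z := by
    have hp : 0 < Real.pi * r ^ 2 := by positivity
    rw [av_eq hr.le, setIntegral_const, vol_ball z hr.le, smul_eq_mul]
    field_simp
  have hi : IntegrableOn f (ball z r) :=
    (hc.continuousOn.integrableOn_compact (isCompact_closedBall z r)).mono_set
      ball_subset_closedBall
  have hi2 : IntegrableOn (fun _ : ℂ => f z) (ball z r) :=
    (continuous_const.continuousOn.integrableOn_compact (isCompact_closedBall z r)).mono_set
      ball_subset_closedBall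
  have h2 : av r f z - f z = av r (fun w => f w - f z) z := by
    rw [av_sub hr.le hi hi2, h1]
  rw [h2]
  refine av_abs_le hr fun w hw => (hK w z).trans ?_
  rw [mem_ball, dist_eq_norm] at hw
  exact mul_le_mul_of_nonneg_left hw.le hK0

/-- the reflection `z ↦ - conj z` -/
noncomputable def J : ℂ ≃ₗᵢ[ℝ] ℂ := Complex.conjLIE.trans (LinearIsometryEquiv.neg ℝ)

lemma J_apply (z : ℂ) : J z = -(starRingEnd ℂ) z := rfl

lemma av_J (hr : 0 ≤ r) (f : ℂ → ℝ) (z : ℂ) : av r (fun w => f (J w)) z = av r f (J z) := by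
  have h1 := (J.measurePreserving).setIntegral_preimage_emb
    (J.toHomeomorph.measurableEmbedding) f (ball (J z) r)
  have h2 : (J : ℂ → ℂ) ⁻¹' ball (J z) r = ball z r := by
    ext w
    simp only [mem_preimage, mem_ball, J.dist_map]
  rw [h2] at h1
  rw [av_eq hr, av_eq hr, h1]

lemma J_ae {p : ℂ → Prop} (h : ∀ᵐ z : ℂ, p z) : ∀ᵐ z : ℂ, p (J z) :=
  (J.measurePreserving).quasiMeasurePreserving.ae h

/-- the average of the real part -/
lemma av_re (hr : 0 < r) (z : ℂ) : av r (fun w => w.re) z = z.re := by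
  have h1 : ∫ w in ball (0 : ℂ) r, w.re = 0 := by
    have h2 : ∫ w in ball (0 : ℂ) r, w.re = ∫ w : ℂ, (ball (0 : ℂ) r).indicator (fun w => w.re) w :=
      (integral_indicator measurableSet_ball).symm
    have h3 := integral_neg_eq_self (fun w : ℂ => (ball (0 : ℂ) r).indicator (fun w => w.re) w)
      volume
    have h4 : ∀ w : ℂ, (ball (0 : ℂ) r).indicator (fun w => w.re) (-w) =
        -(ball (0 : ℂ) r).indicator (fun w => w.re) w := by
      intro w
      by_cases hw : w ∈ ball (0 : ℂ) r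
      · rw [indicator_of_mem hw, indicator_of_mem (by simpa using hw), neg_re]
      · rw [indicator_of_notMem hw, indicator_of_notMem (by simpa using hw), neg_zero]
    simp only [h4] at h3
    rw [integral_neg] at h3
    rw [h2]
    linarith
  have hi : IntegrableOn (fun w : ℂ => w.re) (ball 0 r) :=
    (Complex.continuous_re.continuousOn.integrableOn_compact (isCompact_closedBall 0 r)).mono_set
      ball_subset_closedBall
  have hp : 0 < Real.pi * r ^ 2 := by positivity
  have hc : IntegrableOn (fun _ : ℂ => z.re) (ball 0 r) :=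
    (continuous_const.continuousOn.integrableOn_compact (isCompact_closedBall 0 r)).mono_set
      ball_subset_closedBall
  rw [av_eq0 hr.le]
  simp only [add_re]
  rw [integral_add hc hi, h1, setIntegral_const, vol_ball 0 hr.le, smul_eq_mul]
  field_simp
  ring

/-- averages do not increase the `L^1` size -/
lemma L1_av_le (hf : LocallyIntegrable f volume) {ρ : ℝ} (hρ : 0 < ρ) (R : ℝ) :
    L1 R (av ρ f) ≤ L1 (R + ρ) f := by
  -- a measurable representative
  obtain ⟨g, hg, hfg⟩ : ∃ g : ℂ → ℝ, Measurable g ∧ f =ᵐ[volume] g :=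
    ⟨_, hf.aestronglyMeasurable.aemeasurable.measurable_mk,
      hf.aestronglyMeasurable.aemeasurable.ae_eq_mk⟩
  have h1 : ∀ z, av ρ f z = av ρ g z := fun z => av_congr hρ.le (hfg.mono fun w hw _ => hw)
  have h2 : L1 (R + ρ) f = L1 (R + ρ) g := by
    unfold L1
    refine lintegral_congr_ae (ae_restrict_of_ae ?_)
    filter_upwards [hfg] with w hw
    rw [hw]
  rw [h2]
  have h3 : ∀ z, ‖av ρ f z‖ₑ ≤ ENNReal.ofReal (Real.pi * ρ ^ 2)⁻¹ *
      ∫⁻ w in ball (0 : ℂ) ρ, ‖g (z + w)‖ₑ := by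
    intro z
    rw [h1, av_eq0 hρ.le, enorm_mul, Real.enorm_of_nonneg (by positivity)]
    exact mul_le_mul_right (enorm_integral_le_lintegral_enorm _) _
  unfold L1
  calc ∫⁻ z in closedBall (0 : ℂ) R, ‖av ρ f z‖ₑ
      ≤ ∫⁻ z in closedBall (0 : ℂ) R, ENNReal.ofReal (Real.pi * ρ ^ 2)⁻¹ *
          ∫⁻ w in ball (0 : ℂ) ρ, ‖g (z + w)‖ₑ := lintegral_mono fun z => h3 z
    _ = ENNReal.ofReal (Real.pi * ρ ^ 2)⁻¹ * ∫⁻ z in closedBall (0 : ℂ) R,
          ∫⁻ w in ball (0 : ℂ) ρ, ‖g (z + w)‖ₑ := lintegral_const_mul' _ _ ENNReal.ofReal_ne_top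
    _ = ENNReal.ofReal (Real.pi * ρ ^ 2)⁻¹ * ∫⁻ w in ball (0 : ℂ) ρ,
          ∫⁻ z in closedBall (0 : ℂ) R, ‖g (z + w)‖ₑ := by
        rw [lintegral_lintegral_swap]
        refine Measurable.aemeasurable ?_
        exact (hg.comp (measurable_fst.add measurable_snd)).enorm
    _ ≤ ENNReal.ofReal (Real.pi * ρ ^ 2)⁻¹ * ∫⁻ w in ball (0 : ℂ) ρ,
          ∫⁻ z in closedBall (0 : ℂ) (R + ρ), ‖g z‖ₑ := by
        refine mul_le_mul_right (lintegral_mono_ae ?_) _
        filter_upwards [ae_restrict_mem measurableSet_ball] with w hw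
        rw [mem_ball_zero_iff] at hw
        have h4 := (measurePreserving_add_right (volume : Measure ℂ) w).setLIntegral_comp_preimage_emb
          (measurableEmbedding_addRight w) (fun z => ‖g z‖ₑ) (closedBall w R)
        have h5 : (fun x => x + w) ⁻¹' closedBall w R = closedBall (0 : ℂ) R := by
          ext x
          simp [mem_closedBall, dist_eq_norm]
        rw [h5] at h4
        rw [h4]
        refine lintegral_mono_set ?_
        intro x hx
        rw [mem_closedBall, dist_eq_norm] at hx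
        rw [mem_closedBall_zero_iff]
        have := norm_add_le (x - w) w
        rw [sub_add_cancel] at this
        linarith
    _ = ∫⁻ z in closedBall (0 : ℂ) (R + ρ), ‖g z‖ₑ := by
        rw [setLIntegral_const, mul_comm (∫⁻ z in closedBall (0 : ℂ) (R + ρ), ‖g z‖ₑ),
          ← mul_assoc, ← ofReal_measureReal (by rw [Complex.volume_ball]; finiteness),
          vol_ball 0 hρ.le, ← ENNReal.ofReal_mul (by positivity), inv_mul_cancel₀ (by positivity),
          ENNReal.ofReal_one, one_mul]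

end Pool.Agent.H19.LIM
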