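import Pool.Agent.H20.LIM.Targets

/-!
# (KR) the kernel of the disc averages of the logarithm is a probability density
-/

set_option autoImplicit false

open Complex MeasureTheory Set Filter Topology Metric

namespace Pool.Agent.H19.LIM

open Pool.Agent.H20.LIM Pool.Agent.H23.GLM Pool.Agent.H23.DZ

lemma kr_nonneg {r : ℝ} (hr : 0 < r) {w : ℂ} (hw : w ≠ 0) : 0 ≤ kr r w := by
  unfold kr
  split_ifs with h
  · have hn : 0 < ‖w‖ := norm_pos_iff.2 hw
    have hs : 0 < ‖w‖ / r := by positivity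
    have h1 : Real.log ((‖w‖ / r) ^ 2) ≤ (‖w‖ / r) ^ 2 - 1 :=
      Real.log_le_sub_one_of_pos (by positivity)
    rw [Real.log_pow, Real.log_div hn.ne' hr.ne', div_pow] at h1
    rw [Real.log_div hr.ne' hn.ne']
    refine mul_nonneg (by positivity) ?_
    push_cast at h1
    linarith
  · exact le_rfl

/-- the kernel as a function of the absolute value -/
noncomputable def kp (r ρ : ℝ) : ℝ :=
  4 / (Real.pi * r ^ 2) * ((Real.log r - Real.log ρ) - (1 - ρ ^ 2 / r ^ 2) / 2)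

lemma kr_eq_kp {r : ℝ} (hr : 0 < r) {w : ℂ} (hw : w ≠ 0) (hwr : ‖w‖ < r) :
    kr r w = kp r ‖w‖ := by
  unfold kr kp
  rw [if_pos hwr, Real.log_div hr.ne' (norm_pos_iff.2 hw).ne']

lemma integrable_log (hLI : T_LI) : LocallyIntegrable (fun w : ℂ => Real.log ‖w‖) volume :=
  hLI (fun w => w) differentiable_id ⟨1, one_ne_zero⟩

lemma integrable_kr (hLI : T_LI) {r : ℝ} (hr : 0 < r) : IntegrableOn (kr r) (ball 0 r) := by
  have h1 : IntegrableOn (fun w : ℂ => Real.log ‖w‖) (ball 0 r) :=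
    ((integrable_log hLI).integrableOn_isCompact (isCompact_closedBall 0 r)).mono_set
      ball_subset_closedBall
  have h2 : IntegrableOn (fun w : ℂ => Real.log r - (1 - ‖w‖ ^ 2 / r ^ 2) / 2) (ball 0 r) := by
    refine (Continuous.continuousOn ?_).integrableOn_compact (isCompact_closedBall 0 r)
      |>.mono_set ball_subset_closedBall
    fun_prop
  have h3 := (h2.sub h1).const_mul (4 / (Real.pi * r ^ 2))
  refine Integrable.congr h3 ?_
  have h4 : ∀ᵐ w : ℂ ∂(volume.restrict (ball 0 r)), w ≠ 0 :=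
    ae_restrict_of_ae (by simp [ae_iff])
  filter_upwards [h4, ae_restrict_mem measurableSet_ball] with w hw hwr
  rw [mem_ball_zero_iff] at hwr
  rw [kr_eq_kp hr hw hwr]
  unfold kp
  simp only [Pi.sub_apply]
  ring

lemma circleAverage_kr {r ρ : ℝ} (hr : 0 < r) (hρ : 0 < ρ) (hρr : ρ < r) :
    Real.circleAverage (kr r) 0 ρ = kp r ρ := by
  have h1 : ∀ w ∈ sphere (0 : ℂ) |ρ|, kr r w = kp r ρ := by
    intro w hw
    rw [mem_sphere_zero_iff_norm, abs_of_pos hρ] at hw
    have hw0 : w ≠ 0 := by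
      rw [← norm_pos_iff, hw]
      exact hρ
    rw [kr_eq_kp hr hw0 (by rw [hw]; exact hρr), hw]
  rw [Real.circleAverage_congr_sphere (f₂ := fun _ => kp r ρ) h1]
  exact Real.circleAverage_const _ _ _

lemma integral_kp {r : ℝ} (hr : 0 < r) :
    ∫ ρ in (0 : ℝ)..r, ρ * kp r ρ = 1 / (2 * Real.pi) := by
  have hc : Continuous (fun ρ : ℝ => ρ * Real.log ρ) := Real.continuous_mul_log
  have h1 : ∀ ρ ∈ Ioo (0 : ℝ) r, HasDerivAt (fun ρ : ℝ => 4 / (Real.pi * r ^ 2) *
      (ρ ^ 2 / 2 * Real.log r - ρ / 2 * (ρ * Real.log ρ) + ρ ^ 2 / 4 -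
        (ρ ^ 2 / 2 - ρ ^ 4 / (4 * r ^ 2)) / 2)) (ρ * kp r ρ) ρ := by
    intro ρ hρ
    have hρ0 : ρ ≠ 0 := hρ.1.ne'
    have hl := Real.hasDerivAt_log hρ0
    have hi := hasDerivAt_id ρ
    have h2 : HasDerivAt (fun ρ : ℝ => ρ ^ 2) (2 * ρ) ρ := by
      simpa using hasDerivAt_pow 2 ρ
    have h4 : HasDerivAt (fun ρ : ℝ => ρ ^ 4) (4 * ρ ^ 3) ρ := by
      simpa using hasDerivAt_pow 4 ρ
    have h5 := ((((h2.div_const 2).mul_const (Real.log r)).sub
      ((hi.div_const 2).mul (hi.mul hl))).add (h2.div_const 4)).sub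
      (((h2.div_const 2).sub (h4.div_const (4 * r ^ 2))).div_const 2)
    have h6 := h5.const_mul (4 / (Real.pi * r ^ 2))
    refine h6.congr_deriv ?_
    unfold kp
    simp only [Pi.mul_apply, id]
    field_simp
    ring
  have h2 : Continuous (fun ρ : ℝ => ρ * kp r ρ) := by
    have e : (fun ρ : ℝ => ρ * kp r ρ) = fun ρ => 4 / (Real.pi * r ^ 2) *
        (ρ * Real.log r - ρ * Real.log ρ - ρ * ((1 - ρ ^ 2 / r ^ 2) / 2)) := by
      funext ρ
      unfold kp
      ring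
    rw [e]
    fun_prop
  rw [intervalIntegral.integral_eq_sub_of_hasDerivAt_of_le hr.le ?_ h1
    (h2.intervalIntegrable _ _)]
  · have hpi := Real.pi_pos.ne'
    field_simp
    ring
  · refine Continuous.continuousOn ?_
    fun_prop

lemma integral_kr (hPOL : T_POL) (hLI : T_LI) {r : ℝ} (hr : 0 < r) :
    ∫ w in ball (0 : ℂ) r, kr r w = 1 := by
  have h1 := hPOL (kr r) 0 r hr (integrable_kr hLI hr)
  have h2 : ∫ ρ in (0 : ℝ)..r, ρ * Real.circleAverage (kr r) 0 ρ = 1 / (2 * Real.pi) := by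
    rw [← integral_kp hr]
    refine intervalIntegral.integral_congr_ae ?_
    have h3 : ∀ᵐ ρ : ℝ, ρ ≠ r := by simp [ae_iff]
    filter_upwards [h3] with ρ hρ hρ'
    rw [uIoc_of_le hr.le] at hρ'
    rw [circleAverage_kr hr hρ'.1 (lt_of_le_of_ne hρ'.2 hρ)]
  rw [h2] at h1
  unfold av at h1
  rw [setAverage_eq] at h1
  have hv : volume.real (ball (0 : ℂ) r) = Real.pi * r ^ 2 := by
    rw [Measure.real, Complex.volume_ball, ENNReal.toReal_mul, ENNReal.toReal_pow,
      ENNReal.toReal_ofReal hr.le, mul_comm]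
    rfl
  rw [hv, smul_eq_mul] at h1
  have hpi := Real.pi_pos.ne'
  field_simp at h1
  linarith

theorem pf_kr (hPOL : T_POL) (hLI : T_LI) : T_KR := by
  intro r hr
  refine ⟨fun w hw => kr_nonneg hr hw, integrable_kr hLI hr, integral_kr hPOL hLI hr, ?_⟩
  have h1 : ∫ w in ball (0 : ℂ) r, kr r w * w.re = ∫ w : ℂ, kr r w * w.re := by
    refine setIntegral_eq_integral_of_forall_compl_eq_zero fun w hw => ?_
    rw [mem_ball_zero_iff] at hw
    unfold kr
    rw [if_neg hw, zero_mul]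
  have h2 : ∫ w : ℂ, kr r (-w) * (-w).re = ∫ w : ℂ, kr r w * w.re :=
    integral_neg_eq_self (fun w : ℂ => kr r w * w.re) volume
  have h3 : ∀ w : ℂ, kr r (-w) * (-w).re = -(kr r w * w.re) := by
    intro w
    unfold kr
    rw [norm_neg, neg_re]
    ring
  simp only [h3] at h2
  rw [integral_neg] at h2
  rw [h1]
  linarith

end Pool.Agent.H19.LIM
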