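import Pool.Agent.H20.LIM.Targets

/-!
# (LAN) analyticity, zeros and measurability
-/

set_option autoImplicit false

open Complex MeasureTheory Set Filter Topology Metric

namespace Pool.Agent.H19.LIM

open Pool.Agent.H20.LIM Pool.Agent.H23.GLM Pool.Agent.H23.DZ

lemma measurable_L {m : ℕ} (π : LData m) : Measurable π.L := by
  rcases π.regular with ⟨h, -⟩ | ⟨-, -, -, h⟩
  · exact h.continuous.measurable
  · rw [h]
    refine measurable_of_continuousOn_compl_singleton 1 fun s hs => ?_
    exact (differentiableAt_riemannZeta hs).continuousAt.continuousWithinAt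

lemma measurable_U {m : ℕ} (π : LData m) (t : ℝ) : Measurable (U π t) := by
  unfold U
  have h1 : Measurable (fun z : ℂ => 1 / 2 + (t : ℂ) * I + z) := by fun_prop
  exact (Real.measurable_log.comp ((measurable_L π).comp h1).norm).div_const _

theorem pf_lan (hGRO : T_GRO) : T_LAN := by
  intro m S hS hF π t hπ hX
  refine ⟨fun k => measurable_U _ _, fun R => ?_⟩
  obtain ⟨σ₁, c, hc, hfar⟩ := hF
  set R' : ℝ := |R| + |σ₁| + 2 with hR'
  have hRa := abs_nonneg R
  have hσa := abs_nonneg σ₁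
  obtain ⟨A, K, -, hG⟩ := hGRO m S hS R' (by positivity)
  filter_upwards [hX.eventually_ge_atTop K] with k hk
  have hd : DifferentiableOn ℂ (fun z => (π k).L (1 / 2 + t k * I + z)) (ball 0 R') := by
    intro z hz
    rw [mem_ball_zero_iff] at hz
    have h1 := (hG (π k) (hπ k) (t k) hk z hz.le).1
    have h2 : HasDerivAt (fun z : ℂ => 1 / 2 + (t k : ℂ) * I + z) 1 z := by
      simpa using (hasDerivAt_id z).const_add (1 / 2 + (t k : ℂ) * I)
    exact (DifferentiableAt.comp z h1 h2.differentiableAt).differentiableWithinAt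
  have han : AnalyticOnNhd ℂ (fun z => (π k).L (1 / 2 + t k * I + z)) (ball 0 R') :=
    hd.analyticOnNhd isOpen_ball
  have hsub : closedBall (0 : ℂ) R ⊆ ball 0 R' := by
    intro z hz
    rw [mem_closedBall_zero_iff] at hz
    rw [mem_ball_zero_iff]
    have := le_abs_self R
    linarith
  refine ⟨han.mono hsub, ?_⟩
  have hz1 : ((|σ₁| + 1 : ℝ) : ℂ) ∈ ball (0 : ℂ) R' := by
    rw [mem_ball_zero_iff, Complex.norm_real, Real.norm_eq_abs, abs_of_pos (by positivity)]
    linarith
  have hne : (π k).L (1 / 2 + t k * I + ((|σ₁| + 1 : ℝ) : ℂ)) ≠ 0 := by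
    have h1 := (hfar (π k) (hπ k) (1 / 2 + t k * I + ((|σ₁| + 1 : ℝ) : ℂ)) (by
      have : (1 / 2 + (t k : ℂ) * I + ((|σ₁| + 1 : ℝ) : ℂ)).re = 1 / 2 + (|σ₁| + 1) := by
        simp
      rw [this]
      have := le_abs_self σ₁
      linarith)).1
    rw [← norm_pos_iff]
    linarith
  have h2 := han.preimage_zero_mem_codiscreteWithin hne hz1
    ((convex_ball (0 : ℂ) R').isConnected ⟨_, hz1⟩)
  have h3 := ae_restrict_le_codiscreteWithin (μ := (volume : Measure ℂ)) measurableSet_ball h2
  have h4 : ∀ᵐ z : ℂ, z ∈ ball (0 : ℂ) R' → (π k).L (1 / 2 + t k * I + z) ≠ 0 :=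
    (ae_restrict_iff' measurableSet_ball).1 h3
  filter_upwards [h4] with z hz hzR
  exact hz (hsub (mem_closedBall_zero_iff.2 hzR))

end Pool.Agent.H19.LIM
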