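import Pool.Agent.H19.LIM.AvB

/-!
# (REG) regularisation of profiles by averages over small discs
-/

set_option autoImplicit false

open Complex MeasureTheory Set Filter Topology Metric

namespace Pool.Agent.H19.LIM

open Pool.Agent.H20.LIM Pool.Agent.H23.GLM Pool.Agent.H23.DZ

lemma L1_mono {R R' : ℝ} (h : R ≤ R') (f : ℂ → ℝ) : L1 R f ≤ L1 R' f :=
  lintegral_mono_set (closedBall_subset_closedBall h)

/-- averages of a function which is linear in a neighbourhood -/
lemma av_lin {v : ℂ → ℝ} {ρ κ : ℝ} (hρ : 0 < ρ) {z : ℂ}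
    (h : ∀ᵐ w : ℂ, w ∈ ball z ρ → v w = κ * w.re) : av ρ v z = κ * z.re := by
  rw [av_congr hρ.le h, av_const_mul hρ.le, av_re hρ]

lemma re_ball {z w : ℂ} {ρ : ℝ} (h : w ∈ ball z ρ) : |w.re - z.re| < ρ := by
  rw [mem_ball, dist_eq_norm] at h
  exact lt_of_le_of_lt (by simpa using Complex.abs_re_le_norm (w - z)) h

lemma av_av_lin {v : ℂ → ℝ} {ρ κ : ℝ} (hρ : 0 < ρ) {z : ℂ}
    (h : ∀ᵐ w : ℂ, |w.re - z.re| < 2 * ρ → v w = κ * w.re) : av ρ (av ρ v) z = κ * z.re := by
  refine av_lin hρ (ae_of_all _ fun w hw => ?_)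
  refine av_lin hρ ?_
  filter_upwards [h] with u hu hu2
  refine hu ?_
  have h1 := re_ball hw
  have h2 := re_ball hu2
  have h3 : u.re - z.re = (u.re - w.re) + (w.re - z.re) := by ring
  rw [h3]
  have := abs_add_le (u.re - w.re) (w.re - z.re)
  linarith

theorem pf_reg (hULB : T_ULB) (hAVF : T_AVF) (hAVL : T_AVL) (hAVC : T_AVC) : T_REG := by
  intro q a v hq0 hq1 ha0 ha hV hout R δ hδ
  obtain ⟨M₀, hM₀⟩ := hULB q v hq0 hq1 hV
  obtain ⟨M, hM0, hM⟩ : ∃ M : ℝ, 0 ≤ M ∧ ∀ z : ℂ, ∫⁻ w in ball z 1, ‖v w - q / 2 * |w.re|‖ₑ ≤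
      ENNReal.ofReal M := ⟨max M₀ 0, le_max_right _ _, fun z => (hM₀ z).trans
        (ENNReal.ofReal_le_ofReal (le_max_left _ _))⟩
  obtain ⟨ρ₀, hρ₀, hAC⟩ := hAVC v hV.loc (R + 1) (δ / 2) (by positivity)
  obtain ⟨ρ, hρ, hρρ₀, hρ1, hρa⟩ : ∃ ρ : ℝ, 0 < ρ ∧ ρ ≤ ρ₀ ∧ ρ ≤ 1 ∧ a + 2 * ρ < 1 / 2 := by
    refine ⟨min ρ₀ (min 1 ((1 / 2 - a) / 4)), ?_, min_le_left _ _,
      (min_le_right _ _).trans (min_le_left _ _), ?_⟩
    · have : 0 < (1 / 2 - a) / 4 := by linarith
      positivity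
    · have : min ρ₀ (min 1 ((1 / 2 - a) / 4)) ≤ (1 / 2 - a) / 4 :=
        (min_le_right _ _).trans (min_le_right _ _)
      linarith
  -- the comparison function
  set n : ℂ → ℝ := fun z => q / 2 * |z.re| with hn
  have hnc : Continuous n := by
    rw [hn]
    fun_prop
  have hnl : ∀ z w : ℂ, |n z - n w| ≤ q / 2 * ‖z - w‖ := by
    intro z w
    rw [hn]
    simp only
    rw [← mul_sub, abs_mul, abs_of_nonneg (by positivity)]
    refine mul_le_mul_of_nonneg_left ?_ (by positivity)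
    refine (abs_abs_sub_abs_le z.re w.re).trans ?_
    simpa using Complex.abs_re_le_norm (z - w)
  have hvl := hV.loc
  have hnloc : LocallyIntegrable n volume := hnc.locallyIntegrable
  have hfl : LocallyIntegrable (fun z => v z - n z) volume := hvl.sub hnloc
  set g : ℂ → ℝ := av ρ (fun z => v z - n z) with hg
  have hgc : Continuous g := (hAVF _ hfl ρ ρ hρ hρ).1
  have hAvc : Continuous (av ρ v) := (hAVF _ hvl ρ ρ hρ hρ).1
  have hAnc : Continuous (av ρ n) := (hAVF _ hnloc ρ ρ hρ hρ).1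
  obtain ⟨M₁, hM₁0, hM₁⟩ : ∃ M₁ : ℝ, 0 ≤ M₁ ∧ ∀ z, |g z| ≤ M₁ := by
    refine ⟨(Real.pi * ρ ^ 2)⁻¹ * M, by positivity, fun z => ?_⟩
    rw [hg, av_eq hρ.le, abs_mul, abs_of_pos (by positivity)]
    refine mul_le_mul_of_nonneg_left ?_ (by positivity)
    have h1 : ‖∫ w in ball z ρ, (v w - n w)‖ₑ ≤ ENNReal.ofReal M :=
      (enorm_integral_le_lintegral_enorm _).trans
        ((lintegral_mono_set (ball_subset_ball hρ1)).trans (hM z))
    rw [Real.enorm_eq_ofReal_abs] at h1
    exact (ENNReal.ofReal_le_ofReal_iff hM0).1 h1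
  have hAv : ∀ z, av ρ v z = g z + av ρ n z := by
    intro z
    rw [hg, av_sub hρ.le (intOn_ball hvl z ρ) (intOn_ball hnloc z ρ)]
    ring
  have hAAv : ∀ z, av ρ (av ρ v) z = av ρ g z + av ρ (av ρ n) z := by
    intro z
    have e : av ρ v = fun z => g z + av ρ n z := funext hAv
    rw [e, av_add hρ.le (intOn_ball hgc.locallyIntegrable z ρ)
      (intOn_ball hAnc.locallyIntegrable z ρ)]
  have hAnl : ∀ z w : ℂ, |av ρ n z - av ρ n w| ≤ q / 2 * ‖z - w‖ := av_lip hρ hnc hnl
  refine ⟨a + 2 * ρ, av ρ (av ρ v), hρa, ⟨?_, ?_, ?_, ?_, ?_⟩, ?_⟩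
  · -- Lipschitz
    refine ⟨Real.toNNReal (4 * M₁ / ρ + q / 2), LipschitzWith.of_dist_le' fun z w => ?_⟩
    rw [Real.dist_eq, dist_eq_norm, hAAv, hAAv]
    have h1 := hAVL g M₁ ρ hgc.measurable hM₁ hρ z w
    have h2 := av_lip hρ hAnc hAnl z w
    have h3 : av ρ g z + av ρ (av ρ n) z - (av ρ g w + av ρ (av ρ n) w) =
        (av ρ g z - av ρ g w) + (av ρ (av ρ n) z - av ρ (av ρ n) w) := by ring
    rw [h3]
    have := abs_add_le (av ρ g z - av ρ g w) (av ρ (av ρ n) z - av ρ (av ρ n) w)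
    linarith
  · -- bounded difference
    refine ⟨M₁ + q / 2 * ρ + q / 2 * ρ, fun z => ?_⟩
    rw [hAAv]
    have h1 : |av ρ g z| ≤ M₁ := av_abs_le hρ fun w _ => hM₁ w
    have h2 := av_near hρ (by positivity) hAnc hAnl z
    have h3 := av_near hρ (by positivity) hnc hnl z
    have h4 : av ρ g z + av ρ (av ρ n) z - q / 2 * |z.re| =
        av ρ g z + ((av ρ (av ρ n) z - av ρ n z) + (av ρ n z - n z)) := by
      rw [hn]
      ring
    rw [h4]
    have h5 := abs_add_le (av ρ g z) ((av ρ (av ρ n) z - av ρ n z) + (av ρ n z - n z))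
    have h6 := abs_add_le (av ρ (av ρ n) z - av ρ n z) (av ρ n z - n z)
    linarith
  · -- sub-mean value property
    intro r hr z
    obtain ⟨hrc, hrcomm⟩ := hAVF v hvl r ρ hr hρ
    have h1 : ∀ w, av ρ v w ≤ av r (av ρ v) w := by
      intro w
      rw [hrcomm w]
      refine av_mono hρ.le (intOn_ball hvl w ρ) (intOn_ball hrc.locallyIntegrable w ρ) ?_
      filter_upwards [hV.sub r hr] with u hu _
      exact hu
    obtain ⟨hrc2, hrcomm2⟩ := hAVF (av ρ v) hAvc.locallyIntegrable r ρ hr hρ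
    rw [hrcomm2 z]
    exact av_mono hρ.le (intOn_ball hAvc.locallyIntegrable z ρ)
      (intOn_ball hrc2.locallyIntegrable z ρ) (ae_of_all _ fun w _ => h1 w)
  · -- outside of the strip
    intro z hz
    rcases le_total 0 z.re with h | h
    · rw [abs_of_nonneg h] at hz ⊢
      refine av_av_lin hρ ?_
      filter_upwards [hout] with w hw hwz
      have h1 := abs_lt.1 hwz
      have h2 : a < w.re := by linarith
      rw [hw (lt_of_lt_of_le h2 (le_abs_self _)), abs_of_pos (by linarith)]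
    · rw [abs_of_nonpos h] at hz ⊢
      have h0 : av ρ (av ρ v) z = -(q / 2) * z.re := by
        refine av_av_lin hρ ?_
        filter_upwards [hout] with w hw hwz
        have h1 := abs_lt.1 hwz
        have h2 : a < -w.re := by linarith
        rw [hw (lt_of_lt_of_le h2 (neg_le_abs _)), abs_of_neg (by linarith)]
        ring
      rw [h0]
      ring
  · -- symmetry
    have h1 : ∀ z, av ρ v (J z) = av ρ v z := by
      intro z
      rw [← av_J hρ.le]
      refine av_congr hρ.le ?_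
      filter_upwards [hV.symm] with w hw _
      rw [J_apply]
      exact hw
    intro z
    have h2 : av ρ (av ρ v) (J z) = av ρ (av ρ v) z := by
      rw [← av_J hρ.le]
      exact av_congr hρ.le (ae_of_all _ fun w _ => h1 w)
    rwa [J_apply] at h2
  · -- approximation
    have hhl : LocallyIntegrable (fun z => av ρ v z - v z) volume :=
      hAvc.locallyIntegrable.sub hvl
    have h1 : ∀ z, av ρ (av ρ v) z - v z =
        av ρ (fun w => av ρ v w - v w) z + (av ρ v z - v z) := by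
      intro z
      rw [av_sub hρ.le (intOn_ball hAvc.locallyIntegrable z ρ) (intOn_ball hvl z ρ)]
      ring
    have h2 := hAC ρ hρ hρρ₀
    calc L1 R (fun z => av ρ (av ρ v) z - v z)
        ≤ L1 R (av ρ (fun w => av ρ v w - v w)) + L1 R (fun z => av ρ v z - v z) := by
          unfold L1
          rw [← lintegral_add_right' _ (hhl.aestronglyMeasurable.enorm.restrict)]
          refine lintegral_mono fun z => ?_
          simp only
          rw [h1 z]
          exact enorm_add_le _ _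
      _ ≤ L1 (R + ρ) (fun z => av ρ v z - v z) + L1 R (fun z => av ρ v z - v z) :=
          add_le_add (L1_av_le hhl hρ R) le_rfl
      _ ≤ ENNReal.ofReal (δ / 2) + ENNReal.ofReal (δ / 2) :=
          add_le_add ((L1_mono (by linarith) _).trans h2) ((L1_mono (by linarith) _).trans h2)
      _ = ENNReal.ofReal δ := by
          rw [← ENNReal.ofReal_add (by positivity) (by positivity), add_halves]

end Pool.Agent.H19.LIM
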