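import Pool.Agent.H20.LIM.Targets

/-!
# (TRA) continuity of translations and dilations in `L^1`
-/

set_option autoImplicit false

open Complex MeasureTheory Set Filter Topology Metric

namespace Pool.Agent.H19.LIM

open Pool.Agent.H20.LIM Pool.Agent.H23.GLM Pool.Agent.H23.DZ

lemma tra_aux {v : ℂ → ℝ} (hv : LocallyIntegrable v volume) (R : ℝ) {δ : ℝ} (hδ : 0 < δ) :
    ∃ η : ℝ, 0 < η ∧ ∀ T : ℂ → ℂ, (∀ f : ℂ → ENNReal, ∫⁻ z, f (T z) ≤ 4 * ∫⁻ z, f z) →
      (∀ z ∈ closedBall (0 : ℂ) R, T z ∈ closedBall (0 : ℂ) (2 * (|R| + 1)) ∧ ‖T z - z‖ < η) →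
      L1 R (fun z => v (T z) - v z) ≤ ENNReal.ofReal δ := by
  set B : Set ℂ := closedBall (0 : ℂ) (2 * (|R| + 1)) with hB
  have hBc : IsCompact B := isCompact_closedBall _ _
  have hw : Integrable (B.indicator v) volume :=
    (integrable_indicator_iff measurableSet_closedBall).2 (hv.integrableOn_isCompact hBc)
  obtain ⟨g, -, hg1, hg2, -⟩ := hw.exists_hasCompactSupport_lintegral_sub_le
    (ε := ENNReal.ofReal (δ / 10)) (by
      rw [Ne, ENNReal.ofReal_eq_zero, not_le]
      positivity)
  set A : ℝ := volume.real (closedBall (0 : ℂ) R) with hA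
  have hA0 : 0 ≤ A := measureReal_nonneg
  have huc : UniformContinuousOn g B := hBc.uniformContinuousOn_of_continuous hg2.continuousOn
  obtain ⟨η, hη, hη2⟩ := Metric.uniformContinuousOn_iff.1 huc (δ / (2 * (A + 1))) (by positivity)
  refine ⟨η, hη, fun T hT hTB => ?_⟩
  have hRB : closedBall (0 : ℂ) R ⊆ B := by
    refine closedBall_subset_closedBall ?_
    have := le_abs_self R
    have := abs_nonneg R
    linarith
  set F : ℂ → ENNReal := fun z => ‖B.indicator v z - g z‖ₑ with hF
  have hFm : AEMeasurable F volume := (hw.1.sub hg2.aestronglyMeasurable).enorm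
  have h1 : ∀ z ∈ closedBall (0 : ℂ) R, ‖v (T z) - v z‖ₑ ≤
      F (T z) + (ENNReal.ofReal (δ / (2 * (A + 1))) + F z) := by
    intro z hz
    obtain ⟨h2, h3⟩ := hTB z hz
    have h4 : v (T z) - v z = (B.indicator v (T z) - g (T z)) +
        ((g (T z) - g z) + (g z - B.indicator v z)) := by
      rw [Set.indicator_of_mem h2, Set.indicator_of_mem (hRB hz)]
      ring
    rw [h4]
    refine (enorm_add_le _ _).trans (add_le_add le_rfl ((enorm_add_le _ _).trans ?_))
    refine add_le_add ?_ ?_
    · rw [← ofReal_norm]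
      refine ENNReal.ofReal_le_ofReal ?_
      have h5 := hη2 (T z) h2 z (hRB hz) (by rw [dist_eq_norm]; exact h3)
      rw [dist_eq_norm] at h5
      exact h5.le
    · rw [hF]
      simp only
      rw [enorm_sub_rev]
  unfold L1
  calc ∫⁻ z in closedBall (0 : ℂ) R, ‖v (T z) - v z‖ₑ
      ≤ ∫⁻ z in closedBall (0 : ℂ) R,
          (F (T z) + (ENNReal.ofReal (δ / (2 * (A + 1))) + F z)) := by
        refine lintegral_mono_ae ?_
        filter_upwards [ae_restrict_mem measurableSet_closedBall] with z hz
        exact h1 z hz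
    _ = (∫⁻ z in closedBall (0 : ℂ) R, F (T z)) +
          ((∫⁻ z in closedBall (0 : ℂ) R, ENNReal.ofReal (δ / (2 * (A + 1)))) +
            ∫⁻ z in closedBall (0 : ℂ) R, F z) := by
        have hm : AEMeasurable (fun z => ENNReal.ofReal (δ / (2 * (A + 1))) + F z)
            (volume.restrict (closedBall (0 : ℂ) R)) := aemeasurable_const.add hFm.restrict
        rw [lintegral_add_right' _ hm, lintegral_add_right' _ hFm.restrict]
    _ ≤ 4 * ENNReal.ofReal (δ / 10) + (ENNReal.ofReal (δ / 2) + ENNReal.ofReal (δ / 10)) := by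
        refine add_le_add ?_ (add_le_add ?_ ?_)
        · refine (setLIntegral_le_lintegral _ _).trans ((hT F).trans ?_)
          exact mul_le_mul_right hg1 _
        · rw [setLIntegral_const, ← ofReal_measureReal
            (by exact (isCompact_closedBall _ _).measure_lt_top.ne),
            ← ENNReal.ofReal_mul (by positivity)]
          refine ENNReal.ofReal_le_ofReal ?_
          rw [← hA, div_mul_eq_mul_div, div_le_div_iff₀ (by positivity) (by norm_num)]
          nlinarith
        · exact (setLIntegral_le_lintegral _ _).trans hg1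
    _ = ENNReal.ofReal δ := by
        rw [show (4 : ENNReal) = ENNReal.ofReal 4 by simp, ← ENNReal.ofReal_mul (by norm_num),
          ← ENNReal.ofReal_add (by positivity) (by positivity),
          ← ENNReal.ofReal_add (by positivity) (by positivity)]
        congr 1
        ring

lemma lintegral_dil {l : ℝ} (hl : 1 / 2 ≤ l) (f : ℂ → ENNReal) :
    ∫⁻ z : ℂ, f (l * z) ≤ 4 * ∫⁻ z, f z := by
  have hl0 : l ≠ 0 := by positivity
  have h1 := (measurableEmbedding_const_smul₀ (α := ℂ) hl0).lintegral_map (μ := volume) f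
  rw [Measure.map_addHaar_smul volume hl0, lintegral_smul_measure,
    Complex.finrank_real_complex] at h1
  have h2 : ∀ z : ℂ, f (l • z) = f (l * z) := fun z => by rw [Complex.real_smul]
  simp only [h2] at h1
  rw [← h1, smul_eq_mul]
  refine mul_le_mul_left ?_ _
  rw [show (4 : ENNReal) = ENNReal.ofReal 4 by simp]
  refine ENNReal.ofReal_le_ofReal ?_
  have h3 : (1 / 4 : ℝ) ≤ l ^ 2 := by nlinarith
  rw [abs_of_pos (by positivity)]
  calc (l ^ 2)⁻¹ ≤ (1 / 4 : ℝ)⁻¹ := inv_anti₀ (by norm_num) h3
    _ = 4 := by norm_num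

theorem pf_tra : T_TRA := by
  intro v hv R δ hδ
  obtain ⟨η, hη, h⟩ := tra_aux hv R hδ
  have hR := abs_nonneg R
  refine ⟨min (1 / 2) (η / (2 * (|R| + 1))), by positivity, ?_, ?_⟩
  · intro w hw
    refine h (fun z => z + w) (fun f => ?_) fun z hz => ?_
    · rw [lintegral_add_right_eq_self f w]
      calc ∫⁻ z, f z = 1 * ∫⁻ z, f z := (one_mul _).symm
        _ ≤ 4 * ∫⁻ z, f z := mul_le_mul_left (by norm_num) _
    · rw [mem_closedBall_zero_iff] at hz ⊢
      have h1 : ‖w‖ ≤ 1 / 2 := hw.trans (min_le_left _ _)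
      have h2 : ‖w‖ ≤ η / (2 * (|R| + 1)) := hw.trans (min_le_right _ _)
      constructor
      · have := norm_add_le z w
        have := le_abs_self R
        linarith
      · rw [add_sub_cancel_left]
        refine lt_of_le_of_lt h2 ?_
        rw [div_lt_iff₀ (by positivity)]
        nlinarith
  · intro l hl
    have h1 : |l - 1| ≤ 1 / 2 := hl.trans (min_le_left _ _)
    have h2 : |l - 1| ≤ η / (2 * (|R| + 1)) := hl.trans (min_le_right _ _)
    have h3 := abs_le.1 h1
    refine h (fun z => l * z) (fun f => lintegral_dil (by linarith) f) fun z hz => ?_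
    rw [mem_closedBall_zero_iff] at hz ⊢
    have hzR : ‖z‖ ≤ |R| := hz.trans (le_abs_self R)
    constructor
    · rw [norm_mul, Complex.norm_real, Real.norm_eq_abs, abs_of_pos (by linarith)]
      have := norm_nonneg z
      nlinarith
    · have e : (l : ℂ) * z - z = ((l - 1 : ℝ) : ℂ) * z := by
        push_cast
        ring
      rw [e, norm_mul, Complex.norm_real, Real.norm_eq_abs]
      have h4 : |l - 1| * ‖z‖ ≤ η / (2 * (|R| + 1)) * |R| :=
        mul_le_mul h2 hzR (norm_nonneg _) (by positivity)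
      refine lt_of_le_of_lt h4 ?_
      rw [div_mul_eq_mul_div, div_lt_iff₀ (by positivity)]
      nlinarith

end Pool.Agent.H19.LIM
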